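import Pool.Agent.Run7.h991.MU.Iface

set_option autoImplicit false

namespace H991.MU

theorem conc_mono {A : ℝ → ℝ → ℝ} (hA : Conc A) {x y x' y' : ℝ} (hx : 0 < x) (hy : 0 < y)
    (hxx : x ≤ x') (hyy : y ≤ y') : A x y ≤ A x' y' := by
  obtain ⟨h0, hh, hs⟩ := hA
  refine le_of_forall_lt_imp_le_of_dense ?_ |> fun h => h
  intro a ha
  -- choose l with a ≤ l * A x y, l < 1
  have hxy := h0 x y hx hy
  have hx'y' := h0 x' y' (lt_of_lt_of_le hx hxx) (lt_of_lt_of_le hy hyy)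
  by_cases ha0 : a ≤ 0
  · exact ha0.trans hx'y'
  push Not at ha0
  have hAp : 0 < A x y := lt_trans ha0 ha
  set l := a / A x y with hl
  have hl0 : 0 < l := div_pos ha0 hAp
  have hl1 : l < 1 := (div_lt_one hAp).2 ha
  have h1 := hh l x y hl0 hx hy
  have hlx : l * x < x' := lt_of_lt_of_le (by nlinarith) hxx
  have hly : l * y < y' := lt_of_lt_of_le (by nlinarith) hyy
  have h2 := hs (l * x) (l * y) (x' - l * x) (y' - l * y) (mul_pos hl0 hx) (mul_pos hl0 hy)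
    (by linarith) (by linarith)
  have h3 := h0 (x' - l * x) (y' - l * y) (by linarith) (by linarith)
  have h4 : l * x + (x' - l * x) = x' := by ring
  have h5 : l * y + (y' - l * y) = y' := by ring
  rw [h4, h5, h1] at h2
  have h6 : l * A x y = a := by rw [hl]; field_simp
  linarith

theorem tel_aux (v : ℕ → ℝ) (hv : ∀ j, 0 ≤ v j) (n s : ℕ) :
    ∑ j ∈ Finset.range n, (v j - v (s + j)) ≤ ∑ j ∈ Finset.range s, v j := by
  rw [Finset.sum_sub_distrib]
  have h1 := Finset.sum_range_add v s n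
  have h2 : ∑ j ∈ Finset.range n, v j ≤ ∑ j ∈ Finset.range (s + n), v j :=
    Finset.sum_le_sum_of_subset_of_nonneg (Finset.range_mono (by omega)) (fun j _ _ => hv j)
  linarith

theorem t_TEL : S_TEL := by
  intro A hA y₁ hy₁
  have hA' := hA
  obtain ⟨h0, hh, hs⟩ := hA'
  have hL := h0 1 y₁ one_pos hy₁
  refine ⟨A 1 y₁ / y₁ + 1, by positivity, ?_⟩
  intro x₀ κ η s hx₀ hx₁ hκ hη hs1 B hB
  set Λ := A 1 y₁ / y₁ + 1 with hΛ
  have hΛ0 : 0 < Λ := by positivity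
  rcases B.eq_empty_or_nonempty with rfl | hne
  · simp; positivity
  -- the increments
  have inc : ∀ y k : ℝ, y₁ ≤ y → 0 ≤ k → 0 ≤ A x₀ (y + k) - A x₀ y ∧ A x₀ (y + k) - A x₀ y ≤ k * Λ := by
    intro y k hy hk
    have hy0 : 0 < y := lt_of_lt_of_le hy₁ hy
    have m1 : A x₀ y ≤ A x₀ (y + k) := conc_mono hA hx₀ hy0 le_rfl (by linarith)
    -- quotient bound
    have quo : ∀ p q : ℝ, 0 < p → p ≤ q → A x₀ q * p ≤ A x₀ p * q := by
      intro p q hp hpq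
      have hq : 0 < q := lt_of_lt_of_le hp hpq
      have e1 := hh (q / p) (x₀ * p / q) p (div_pos hq hp) (by positivity) hp
      have e2 : q / p * (x₀ * p / q) = x₀ := by field_simp
      have e3 : q / p * p = q := by field_simp
      rw [e2, e3] at e1
      have e4 : A (x₀ * p / q) p ≤ A x₀ p := by
        refine conc_mono hA (by positivity) hp ?_ le_rfl
        rw [div_le_iff₀ hq]
        nlinarith
      rw [e1]
      have e5 : q / p * A (x₀ * p / q) p * p = q * A (x₀ * p / q) p := by field_simp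
      rw [e5, mul_comm (A x₀ p) q]
      exact mul_le_mul_of_nonneg_left e4 hq.le
    have q1 := quo y (y + k) hy0 (by linarith)
    have q2 := quo y₁ y hy₁ hy
    have q3 : A x₀ y₁ ≤ A 1 y₁ := conc_mono hA hx₀ hy₁ hx₁ le_rfl
    refine ⟨by linarith, ?_⟩
    -- A (y+k) - A y ≤ k * (A y / y) ≤ k * (A 1 y₁ / y₁)
    have r1 : A x₀ (y + k) - A x₀ y ≤ k * (A x₀ y / y) := by
      have : (A x₀ (y + k) - A x₀ y) * y ≤ k * A x₀ y := by nlinarith
      rw [← mul_div_assoc, le_div_iff₀ hy0]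
      exact this
    have r2 : A x₀ y / y ≤ A 1 y₁ / y₁ := by
      rw [div_le_div_iff₀ hy0 hy₁]
      calc A x₀ y * y₁ ≤ A x₀ y₁ * y := q2
        _ ≤ A 1 y₁ * y := mul_le_mul_of_nonneg_right q3 hy0.le
    calc A x₀ (y + k) - A x₀ y ≤ k * (A x₀ y / y) := r1
      _ ≤ k * Λ := mul_le_mul_of_nonneg_left (by linarith) hk
  let u : ℕ → ℝ := fun b => A x₀ (b * κ) - A x₀ (b * κ - s * κ)
  have hsκ : 0 ≤ (s : ℝ) * κ := by positivity
  have hu : ∀ b : ℕ, y₁ + s * κ ≤ b * κ → 0 ≤ u b ∧ u b ≤ (s * κ) * Λ := by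
    intro b hb
    have := inc (b * κ - s * κ) (s * κ) (by linarith) hsκ
    have e : (b : ℝ) * κ - s * κ + s * κ = b * κ := by ring
    rw [e] at this
    exact this
  have hD : ∀ b : ℕ, D2 A x₀ (b * κ) (s * κ) = u b - u (s + b) := by
    intro b
    change 2 * A x₀ (b * κ) - A x₀ (b * κ + s * κ) - A x₀ (b * κ - s * κ) =
      (A x₀ (b * κ) - A x₀ (b * κ - s * κ)) -
        (A x₀ (((s + b : ℕ) : ℝ) * κ) - A x₀ (((s + b : ℕ) : ℝ) * κ - s * κ))
    have e1 : ((s + b : ℕ) : ℝ) * κ = b * κ + s * κ := by push_cast; ring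
    have e2 : (b : ℝ) * κ + s * κ - s * κ = b * κ := by ring
    rw [e1, e2]
    ring
  have hDn : ∀ b : ℕ, y₁ + s * κ ≤ b * κ → 0 ≤ D2 A x₀ (b * κ) (s * κ) := by
    intro b hb
    have h1 := hs x₀ (b * κ + s * κ) x₀ (b * κ - s * κ) hx₀ (by linarith) hx₀ (by linarith)
    have h2 := hh 2 x₀ (b * κ) two_pos hx₀ (by linarith)
    have e1 : x₀ + x₀ = 2 * x₀ := by ring
    have e2 : (b : ℝ) * κ + s * κ + (b * κ - s * κ) = 2 * (b * κ) := by ring
    rw [e1, e2, h2] at h1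
    unfold D2
    linarith
  set b₀ := B.min' hne with hb₀
  set b₁ := B.max' hne with hb₁
  have hb₀B : b₀ ∈ B := B.min'_mem hne
  have hge : ∀ b : ℕ, b₀ ≤ b → y₁ + s * κ ≤ b * κ := by
    intro b hb
    have h1 := (hB b₀ hb₀B).1
    have h2 : (b₀ : ℝ) ≤ b := by exact_mod_cast hb
    nlinarith
  have hsub : B ⊆ Finset.Ico b₀ (b₁ + 1) := by
    intro b hb
    rw [Finset.mem_Ico]
    exact ⟨B.min'_le b hb, Nat.lt_succ_of_le (B.le_max' b hb)⟩
  have s1 : (B.card : ℝ) * (η * κ) ≤ ∑ b ∈ B, D2 A x₀ (b * κ) (s * κ) := by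
    rw [← nsmul_eq_mul]
    exact Finset.card_nsmul_le_sum _ _ _ fun b hb => (hB b hb).2.le
  have s2 : ∑ b ∈ B, D2 A x₀ (b * κ) (s * κ) ≤
      ∑ b ∈ Finset.Ico b₀ (b₁ + 1), D2 A x₀ (b * κ) (s * κ) :=
    Finset.sum_le_sum_of_subset_of_nonneg hsub fun b hb _ =>
      hDn b (hge b (Finset.mem_Ico.1 hb).1)
  have s3 : ∑ b ∈ Finset.Ico b₀ (b₁ + 1), D2 A x₀ (b * κ) (s * κ) =
      ∑ j ∈ Finset.range (b₁ + 1 - b₀), (u (b₀ + j) - u (b₀ + (s + j))) := by
    rw [Finset.sum_Ico_eq_sum_range]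
    refine Finset.sum_congr rfl fun j _ => ?_
    rw [hD]
    congr 2
    omega
  have s4 := tel_aux (fun j => u (b₀ + j)) (fun j => (hu _ (hge _ (by omega))).1) (b₁ + 1 - b₀) s
  have s5 : ∑ j ∈ Finset.range s, u (b₀ + j) ≤ s * ((s * κ) * Λ) := by
    have := Finset.sum_le_card_nsmul (Finset.range s) (fun j => u (b₀ + j)) ((s * κ) * Λ)
      (fun j _ => (hu _ (hge _ (by omega))).2)
    rw [Finset.card_range, nsmul_eq_mul] at this
    exact this
  have s6 : (B.card : ℝ) * (η * κ) ≤ s * ((s * κ) * Λ) := by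
    calc (B.card : ℝ) * (η * κ) ≤ _ := s1
      _ ≤ _ := s2
      _ = _ := s3
      _ ≤ _ := s4
      _ ≤ _ := s5
  have s7 : ((B.card : ℝ) * η) * κ ≤ ((s : ℝ) ^ 2 * Λ) * κ := by
    calc ((B.card : ℝ) * η) * κ = (B.card : ℝ) * (η * κ) := by ring
      _ ≤ s * ((s * κ) * Λ) := s6
      _ = ((s : ℝ) ^ 2 * Λ) * κ := by ring
  exact le_of_mul_le_mul_right s7 hκ

end H991.MU
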